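import Pool.Agent.Y166.LT.DefsF

/-!
# The Jacobian determinant of the changes of charts of the Grassmannian of planes
-/

set_option autoImplicit false

namespace Pool.Agent.Y361.LT.FJA

open MvPolynomial Matrix Pool.Agent.Y166.GM Pool.Agent.Y198.MC Pool.Agent.Y166.LT
open scoped Kronecker

/-- The enumeration of the indices of the rows. -/
def ee (r : ℕ) : Fin 2 ⊕ Fin r ≃ Fin (r + 2) := finSumFinEquiv.trans (finCongr (by omega))

theorem ee_inl0 (r : ℕ) : ee r (.inl 0) = 0 := by
  apply Fin.ext; simp [ee]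

theorem ee_inl1 (r : ℕ) : ee r (.inl 1) = 1 := by
  apply Fin.ext; simp [ee]

theorem ee_inr (r : ℕ) (i : Fin r) : ee r (.inr i) = i.succ.succ := by
  apply Fin.ext; simp [ee]

section
variable {R : Type} [CommRing R] {r : ℕ}

/-- The matrix with the rows of the basis of the plane and the unit vectors. -/
def NN (y : Ch r → R) : Matrix (Fin 2 ⊕ Fin r) (Fin 2 ⊕ Fin r) R :=
  fromBlocks 1 0 (of fun i b => y (.inl (i, b))) 1

theorem NN_l (y : Ch r → R) (c : Fin 2 ⊕ Fin r) (b : Fin 2) :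
    NN y c (.inl b) = ![U0 y (ee r c), V0 y (ee r c)] b := by
  rcases c with c | i
  · fin_cases c <;> fin_cases b <;> simp [NN, ee_inl0, ee_inl1, U0, V0]
  · fin_cases b <;> simp [NN, ee_inr, U0, V0]

theorem NN_r (y : Ch r → R) (c : Fin 2 ⊕ Fin r) (i' : Fin r) :
    NN y c (.inr i') = if ee r c = i'.succ.succ then 1 else 0 := by
  rcases c with c | i
  · fin_cases c
    · simp [NN, ee_inl0, (Fin.succ_ne_zero _).symm]
    · have : (1 : Fin (r + 2)) ≠ i'.succ.succ := by
        intro h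
        have := congrArg Fin.val h
        simp at this
      simp [NN, ee_inl1, this]
  · simp [NN, ee_inr, Matrix.one_apply]

theorem det_NN (y : Ch r → R) : (NN y).det = 1 := by
  simp [NN]

variable (y : Ch r → R) (σ : Equiv.Perm (Fin (r + 2)))

/-- The matrix of the two chosen rows. -/
def PP0 : Matrix (Fin 2) (Fin 2) R :=
  !![U0 y (σ 0), V0 y (σ 0); U0 y (σ 1), V0 y (σ 1)]

/-- The matrix of the other rows. -/
def RR : Matrix (Fin r) (Fin 2) R :=
  of fun i b => ![U0 y (σ i.succ.succ), V0 y (σ i.succ.succ)] b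

variable (R) in
/-- The other columns. -/
def P12 : Matrix (Fin 2) (Fin r) R :=
  of fun b i' => if σ (![0, 1] b) = i'.succ.succ then 1 else 0

variable (R) in
/-- The other columns. -/
def P22 : Matrix (Fin r) (Fin r) R :=
  of fun i i' => if σ i.succ.succ = i'.succ.succ then 1 else 0

theorem blocks : fromBlocks (PP0 y σ) (P12 R σ) (RR y σ) (P22 R σ) =
    (NN y).submatrix ((ee r).trans (σ.trans (ee r).symm)) id := by
  ext a a'
  rcases a' with b | i'
  · simp only [submatrix_apply, id, NN_l, Equiv.trans_apply, Equiv.apply_symm_apply]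
    rcases a with a | i
    · fin_cases a <;> fin_cases b <;> simp [PP0, ee_inl0, ee_inl1]
    · fin_cases b <;> simp [RR, ee_inr]
  · simp only [submatrix_apply, id, NN_r, Equiv.trans_apply, Equiv.apply_symm_apply]
    rcases a with a | i
    · fin_cases a <;> simp [P12, ee_inl0, ee_inl1]
    · simp [P22, ee_inr]

theorem det_blocks : (fromBlocks (PP0 y σ) (P12 R σ) (RR y σ) (P22 R σ)).det ^ 2 = 1 := by
  rw [blocks, det_permute, det_NN, mul_one, ← Int.cast_pow]
  have : ((Equiv.Perm.sign ((ee r).trans (σ.trans (ee r).symm)) : ℤˣ) : ℤ) ^ 2 = 1 := by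
    rw [← Units.val_pow_eq_pow_val, Int.units_sq]; rfl
  rw [this]; simp

/-- The matrix of the derivatives. -/
def BB : Matrix (Fin r) (Fin r) R :=
  (PP0 y σ).det • P22 R σ - (RR y σ * (PP0 y σ).adjugate) * P12 R σ

theorem detB : (PP0 y σ).det ^ 4 * (BB y σ).det ^ 2 = (PP0 y σ).det ^ (2 * r + 2) := by
  have e1 : PP0 y σ * (PP0 y σ).adjugate = (PP0 y σ).det • (1 : Matrix (Fin 2) (Fin 2) R) :=
    mul_adjugate _
  have e2 : PP0 y σ * -((PP0 y σ).adjugate * P12 R σ) +
      P12 R σ * ((PP0 y σ).det • (1 : Matrix (Fin r) (Fin r) R)) = 0 := by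
    rw [Matrix.mul_neg, ← Matrix.mul_assoc, e1]; simp
  have e3 : RR y σ * -((PP0 y σ).adjugate * P12 R σ) +
      P22 R σ * ((PP0 y σ).det • (1 : Matrix (Fin r) (Fin r) R)) = BB y σ := by
    rw [Matrix.mul_neg, ← Matrix.mul_assoc, BB]
    simp
    abel
  have h : fromBlocks (PP0 y σ) (P12 R σ) (RR y σ) (P22 R σ) *
      fromBlocks (PP0 y σ).adjugate (-((PP0 y σ).adjugate * P12 R σ)) 0
        ((PP0 y σ).det • (1 : Matrix (Fin r) (Fin r) R)) =
      fromBlocks ((PP0 y σ).det • (1 : Matrix (Fin 2) (Fin 2) R)) 0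
        (RR y σ * (PP0 y σ).adjugate) (BB y σ) := by
    rw [fromBlocks_multiply, e2, e3, e1]
    simp
  have h2 := congrArg det h
  rw [det_mul, det_fromBlocks_zero₂₁, det_fromBlocks_zero₁₂, det_adjugate, det_smul, det_smul,
    det_one, det_one] at h2
  simp only [Fintype.card_fin, mul_one] at h2
  have h3 := det_blocks y σ
  have h4 := congrArg (· ^ 2) h2
  simp only [mul_pow, h3, one_mul] at h4
  calc _ = ((PP0 y σ).det ^ 2) ^ 2 * (BB y σ).det ^ 2 := by ring
    _ = _ := h4.symm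
    _ = _ := by
        rw [show 2 - 1 = 1 from rfl]
        ring

end

section
variable {k : Type} [Field k] {r : ℕ}

theorem dU (c : Fin (r + 2)) (i' : Fin r) (b' : Fin 2) :
    pderiv (Sum.inl (i', b')) (U0 (X : Ch r → MvPolynomial (Ch r) k) c) =
      (if c = i'.succ.succ then 1 else 0) * (if b' = 0 then 1 else 0) := by
  refine Fin.cases ?_ (fun c => Fin.cases ?_ (fun i => ?_) c) c
  · have : (0 : Fin (r + 2)) ≠ i'.succ.succ := (Fin.succ_ne_zero _).symm
    simp [U0, this]
  · have : (Fin.succ 0 : Fin (r + 2)) ≠ i'.succ.succ := by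
      intro h
      exact (Fin.succ_ne_zero i').symm (Fin.succ_injective _ h)
    simp only [U0, Fin.cons_succ, Fin.cons_zero, map_zero, if_neg this, zero_mul]
  · simp only [U0, Fin.cons_succ, pderiv_X, Fin.succ_inj]
    have hb : b' = 0 ∨ b' = 1 := by fin_cases b' <;> simp
    by_cases h : i = i' <;> rcases hb with h2 | h2 <;>
      simp [h, h2]

theorem dV (c : Fin (r + 2)) (i' : Fin r) (b' : Fin 2) :
    pderiv (Sum.inl (i', b')) (V0 (X : Ch r → MvPolynomial (Ch r) k) c) =
      (if c = i'.succ.succ then 1 else 0) * (if b' = 0 then 0 else 1) := by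
  refine Fin.cases ?_ (fun c => Fin.cases ?_ (fun i => ?_) c) c
  · have : (0 : Fin (r + 2)) ≠ i'.succ.succ := (Fin.succ_ne_zero _).symm
    simp [V0, this]
  · have : (Fin.succ 0 : Fin (r + 2)) ≠ i'.succ.succ := by
      intro h
      exact (Fin.succ_ne_zero i').symm (Fin.succ_injective _ h)
    simp only [V0, Fin.cons_succ, Fin.cons_zero, pderiv_one, if_neg this, zero_mul]
  · simp only [V0, Fin.cons_succ, pderiv_X, Fin.succ_inj]
    have hb : b' = 0 ∨ b' = 1 := by fin_cases b' <;> simp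
    by_cases h : i = i' <;> rcases hb with h2 | h2 <;>
      simp [h, h2]

/-- The second factor. -/
noncomputable def QQ (k : Type) [Field k] {r : ℕ} (σ : Equiv.Perm (Fin (r + 2))) :
    Matrix (Fin 2) (Fin 2) (MvPolynomial (Ch r) k) :=
  !![V0 X (σ 1), -U0 X (σ 1); -V0 X (σ 0), U0 X (σ 0)]

theorem kron (σ : Equiv.Perm (Fin (r + 2))) (w : Fin r × Fin 2 → MvPolynomial (Ch r) k)
    (hw0 : ∀ i, w (i, 0) = U0 X (σ i.succ.succ) * V0 X (σ 1) - V0 X (σ i.succ.succ) * U0 X (σ 1))
    (hw1 : ∀ i, w (i, 1) = U0 X (σ 0) * V0 X (σ i.succ.succ) - V0 X (σ 0) * U0 X (σ i.succ.succ)) :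
    (Matrix.of fun p q : Fin r × Fin 2 =>
      pderiv (.inl q) (w p) * (PP0 X σ).det - w p * pderiv (.inl q) (PP0 X σ).det) =
      (BB X σ) ⊗ₖ (QQ k σ) := by
  ext1 ⟨i, b⟩ ⟨i', b'⟩
  have hB : (BB (X : Ch r → MvPolynomial (Ch r) k) σ) i i' =
      (PP0 X σ).det * (if σ i.succ.succ = i'.succ.succ then 1 else 0) -
        (w (i, 0) * (if σ 0 = i'.succ.succ then 1 else 0) +
          w (i, 1) * (if σ 1 = i'.succ.succ then 1 else 0)) := by
    rw [hw0, hw1]
    simp only [BB, Matrix.sub_apply, Matrix.smul_apply, Matrix.mul_apply, Fin.sum_univ_two,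
      P22, P12, RR, PP0, adjugate_fin_two, of_apply, cons_val_zero, cons_val_one, smul_eq_mul]
    ring_nf
  rw [kronecker_apply, hB]
  simp only [of_apply]
  have hb : b = 0 ∨ b = 1 := by fin_cases b <;> simp
  have hb' : b' = 0 ∨ b' = 1 := by fin_cases b' <;> simp
  rcases hb with rfl | rfl <;> rcases hb' with rfl | rfl <;>
  · simp only [hw0, hw1, PP0, det_fin_two, of_apply, cons_val', cons_val_zero, cons_val_fin_one,
      cons_val_one, QQ, map_sub, Derivation.leibniz, dU, dV, smul_eq_mul, if_true, one_ne_zero,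
      if_false]
    ring

theorem det_QQ (σ : Equiv.Perm (Fin (r + 2))) :
    (QQ k σ).det = (PP0 (X : Ch r → MvPolynomial (Ch r) k) σ).det := by
  simp only [QQ, PP0, det_fin_two_of]
  ring

/-- A map to two elements which separates two elements. -/
theorem sep (a₀ a₁ : Fin (r + 2)) (h : a₀ ≠ a₁) :
    ∃ f : Fin (r + 2) → Fin 2, f 0 = 0 ∧ f 1 = 1 ∧ f a₀ ≠ f a₁ := by
  have h01 : (1 : Fin (r + 2)) ≠ 0 := by
    intro h
    have := congrArg Fin.val h
    simp at this
  refine ⟨fun a => if a = 0 then 0 else if a = 1 then 1 else if a = a₀ then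
    (if a₁ = 0 then 1 else 0) else if a = a₁ then (if a₀ = 1 then 0 else 1) else 0,
    by simp, by simp [h01], ?_⟩
  have h' := h.symm
  by_cases p0 : a₀ = 0 <;> by_cases p1 : a₀ = 1 <;> by_cases q0 : a₁ = 0 <;>
    by_cases q1 : a₁ = 1 <;> simp_all

theorem ne (σ : Equiv.Perm (Fin (r + 2))) :
    (PP0 (X : Ch r → MvPolynomial (Ch r) k) σ).det ≠ 0 := by
  obtain ⟨f, f0, f1, hf⟩ := sep (σ 0) (σ 1) (fun h => by
    have := congrArg Fin.val (σ.injective h)
    simp at this)
  intro h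
  let x : Ch r → k := Sum.elim (fun p => if f p.1.succ.succ = p.2 then 1 else 0) fun _ => 0
  have hU : ∀ a, eval x (U0 X a) = if f a = 0 then 1 else 0 := by
    intro a
    refine Fin.cases ?_ (fun a => Fin.cases ?_ (fun i => ?_) a) a
    · simp [U0, f0]
    · have : f (Fin.succ 0) = 1 := f1
      simp only [U0, Fin.cons_succ, Fin.cons_zero, map_zero, this]
      simp
    · simp [U0, x]
  have hV : ∀ a, eval x (V0 X a) = if f a = 1 then 1 else 0 := by
    intro a
    refine Fin.cases ?_ (fun a => Fin.cases ?_ (fun i => ?_) a) a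
    · simp [V0, f0]
    · have : f (Fin.succ 0) = 1 := f1
      simp only [V0, Fin.cons_succ, Fin.cons_zero, map_one, this]
      simp
    · simp [V0, x]
  have h2 := congrArg (eval x) h
  simp only [PP0, det_fin_two_of, map_sub, map_mul, hU, hV, map_zero] at h2
  have c0 : f (σ 0) = 0 ∨ f (σ 0) = 1 := by
    generalize f (σ 0) = z
    fin_cases z <;> simp
  have c1 : f (σ 1) = 0 ∨ f (σ 1) = 1 := by
    generalize f (σ 1) = z
    fin_cases z <;> simp
  rcases c0 with c0 | c0 <;> rcases c1 with c1 | c1 <;> simp [c0, c1] at h2 hf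

end

theorem done : S_FJA := by
  intro k _ r π π' u v hu hv w δ hw0 hw1 hδ
  subst hu hv
  have e : δ = (PP0 (X : Ch r → MvPolynomial (Ch r) k) (π'.trans π.symm)).det := by
    rw [hδ]
    simp only [PP0, det_fin_two_of]
    rfl
  subst hδ
  rw [e, kron (π'.trans π.symm) w hw0 hw1, det_kronecker, det_QQ]
  simp only [Fintype.card_fin]
  have h1 := detB (X : Ch r → MvPolynomial (Ch r) k) (π'.trans π.symm)
  have h2 := ne (k := k) (π'.trans π.symm)
  set δ := (PP0 (X : Ch r → MvPolynomial (Ch r) k) (π'.trans π.symm)).det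
  set b := (BB (X : Ch r → MvPolynomial (Ch r) k) (π'.trans π.symm)).det
  apply mul_left_cancel₀ (pow_ne_zero 2 h2)
  calc δ ^ 2 * (b ^ 2 * δ ^ r * δ ^ 2) = (δ ^ 4 * b ^ 2) * δ ^ r := by ring
    _ = δ ^ (2 * r + 2) * δ ^ r := by rw [h1]
    _ = _ := by ring

end Pool.Agent.Y361.LT.FJA
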